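import Mathlib

/-!
# Pairwise compatibility graphs: definitions
-/

set_option autoImplicit false

namespace Pool.Agent.Q230.PG

/-- The total weight of the edges of a walk. -/
def wt {N : Type} {T : SimpleGraph N} (w : Sym2 N → ℝ) {x y : N} (p : T.Walk x y) : ℝ :=
  (p.edges.map w).sum

/-- The graph `PCG(T, dmin, dmax)` of a tree `T` with edge weights `w`, whose leaves are
identified with the elements of `V` by `ℓ`: the vertices are the elements of `V` and two different
ones are adjacent iff the weight of the path in `T` between the two leaves is in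
`[dmin, dmax]`. -/
def PCG {V N : Type} (T : SimpleGraph N) (w : Sym2 N → ℝ) (ℓ : V → N) (dmin dmax : ℝ) :
    SimpleGraph V where
  Adj u v := u ≠ v ∧ ∃ p : T.Walk (ℓ u) (ℓ v), p.IsPath ∧ dmin ≤ wt w p ∧ wt w p ≤ dmax
  symm := ⟨by
    rintro u v ⟨h, p, hp, h1, h2⟩
    have e : wt w p.reverse = wt w p := by
      simp [wt, SimpleGraph.Walk.edges_reverse, List.map_reverse, List.sum_reverse]
    exact ⟨h.symm, p.reverse, hp.reverse, e ▸ h1, e ▸ h2⟩⟩
  loopless := ⟨fun u h => h.1 rfl⟩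

/-- Generalized PCG recognition for the graph `G` and the set `S` of pairs: there are a finite tree
`T` with positive edge weights, whose leaves (the vertices of degree one) are identified with the
vertices of `G`, and numbers `0 ≤ dmin ≤ dmax`, such that `PCG(T, dmin, dmax)` contains all edges
of `G` and no pair in `S`. -/
def GenPCG {V : Type} (G : SimpleGraph V) (S : Set (V × V)) : Prop :=
  ∃ (N : Type) (_ : Finite N) (T : SimpleGraph N) (w : Sym2 N → ℝ) (ℓ : V → N) (dmin dmax : ℝ),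
    T.IsTree ∧ (∀ e ∈ T.edgeSet, 0 < w e) ∧ Function.Injective ℓ ∧
    (∀ x, x ∈ Set.range ℓ ↔ (T.neighborSet x).ncard = 1) ∧ 0 ≤ dmin ∧ dmin ≤ dmax ∧
    G ≤ PCG T w ℓ dmin dmax ∧ ∀ p ∈ S, ¬ (PCG T w ℓ dmin dmax).Adj p.1 p.2

/-- Instances: a number `n` of vertices `0, …, n - 1`, a list of edges and a list of pairs. -/
abbrev Inst : Type := ℕ × List (ℕ × ℕ) × List (ℕ × ℕ)

/-- The graph of an instance. -/
def graph (I : Inst) : SimpleGraph (Fin I.1) where
  Adj u v := u ≠ v ∧ ((u.1, v.1) ∈ I.2.1 ∨ (v.1, u.1) ∈ I.2.1)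
  symm := ⟨fun _ _ h => ⟨h.1.symm, h.2.symm⟩⟩
  loopless := ⟨fun _ h => h.1 rfl⟩

/-- The set of pairs of an instance. -/
def pairs (I : Inst) : Set (Fin I.1 × Fin I.1) := {p | (p.1.1, p.2.1) ∈ I.2.2}

/-- The first list describes edges of a simple graph on `{0, …, n - 1}` and the second one a set of
pairs of different non-adjacent vertices. -/
def IsInst (I : Inst) : Prop :=
  (∀ e ∈ I.2.1, e.1 < I.1 ∧ e.2 < I.1 ∧ e.1 ≠ e.2) ∧
  ∀ e ∈ I.2.2, e.1 < I.1 ∧ e.2 < I.1 ∧ e.1 ≠ e.2 ∧ e ∉ I.2.1 ∧ e.swap ∉ I.2.1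

/-- The decision problem: generalized PCG recognition. -/
def Problem (I : Inst) : Prop := IsInst I ∧ GenPCG (graph I) (pairs I)

end Pool.Agent.Q230.PG
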