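import Mathlib

/-!
# Consequences of the four-point condition
-/

set_option autoImplicit false

namespace Pool.Agent.Q230.PG

/-- A function with the properties of the distance of a tree that are used below. -/
structure TM {W : Type} (d : W → W → ℝ) : Prop where
  symm : ∀ x y, d x y = d y x
  four : ∀ x y z u, d x y + d z u ≤ d x z + d y u ∨ d x y + d z u ≤ d x u + d y z

variable {W : Type} {d : W → W → ℝ} {m M : ℝ}

/-- The distance of `x` and `y` is in the interval. -/
def Med (d : W → W → ℝ) (m M : ℝ) (x y : W) : Prop := m ≤ d x y ∧ d x y ≤ M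

theorem Med.symm (hd : TM d) {x y : W} (h : Med d m M x y) : Med d m M y x := by
  unfold Med
  rw [hd.symm y x]
  exact h

/-- Two pairs with all four cross distances in the interval are not both long. -/
theorem nand (hd : TM d) {x y z u : W} (h1 : Med d m M x z) (h2 : Med d m M x u)
    (h3 : Med d m M y z) (h4 : Med d m M y u) : ¬ (M < d x y ∧ M < d z u) := by
  rintro ⟨h5, h6⟩
  have := h1.2
  have := h2.2
  have := h3.2
  have := h4.2
  rcases hd.four x y z u with h | h <;> linarith

/-- The threshold graph of a tree metric has no induced cycle of length nine. -/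
theorem cyc9 (hd : TM d) (x : ZMod 9 → W) (hside : ∀ j, d (x j) (x (j + 1)) < m)
    (hch : ∀ i j, j ≠ i → j ≠ i + 1 → i ≠ j + 1 → m ≤ d (x i) (x j)) : False := by
  classical
  let C : Finset (ZMod 9 × ZMod 9) :=
    Finset.univ.filter (fun p => p.2 ≠ p.1 ∧ p.2 ≠ p.1 + 1 ∧ p.1 ≠ p.2 + 1)
  have hne : C.Nonempty := ⟨(0, 2), by simp only [C, Finset.mem_filter, Finset.mem_univ, true_and]; decide⟩
  obtain ⟨⟨a, b⟩, hab, hmax⟩ := Finset.exists_max_image C (fun p => d (x p.1) (x p.2)) hne
  simp only [C, Finset.mem_filter, Finset.mem_univ, true_and] at hab hmax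
  obtain ⟨h1, h2, h3⟩ := hab
  have hside' : ∀ j, d (x (j + 1)) (x j) < m := fun j => by rw [hd.symm]; exact hside j
  have hab' := hch a b h1 h2 h3
  have hz : ∀ a : ZMod 9, a + 1 ≠ a - 1 ∧ a + 1 ≠ a - 1 + 1 ∧ a - 1 ≠ a + 1 + 1 := by decide
  have hce : m ≤ d (x (a - 1)) (x (a + 1)) := hch _ _ (hz a).1 (hz a).2.1 (hz a).2.2
  have key : ∀ e, d (x b) (x e) ≤ d (x a) (x b) ∨ e = b := by
    intro e
    by_cases he : e = b
    · exact Or.inr he
    · left
      by_cases he1 : e = b + 1
      · rw [he1]
        exact ((hside b).le).trans hab'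
      · by_cases he2 : b = e + 1
        · rw [he2, hd.symm, ]
          rw [he2] at hab'
          exact ((hside e).le).trans hab'
        · exact hmax (b, e) ⟨he, he1, he2⟩
  have hac : d (x a) (x (a - 1)) < m := by
    have := hside' (a - 1)
    rwa [sub_add_cancel] at this
  have hae : d (x a) (x (a + 1)) < m := hside a
  rcases hd.four (x a) (x b) (x (a - 1)) (x (a + 1)) with h | h
  · rcases key (a + 1) with h4 | h4
    · linarith
    · exact h2 h4.symm
  · rcases key (a - 1) with h4 | h4
    · linarith
    · exact h3 (by rw [← h4]; ring)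

/-- A pair joined to a gadget is not long. -/
theorem forced (hd : TM d) {a b c e p q : W} (hab : Med d m M a b) (hce : Med d m M c e)
    (h1 : ¬ Med d m M a c) (h2 : ¬ Med d m M b e) (h3 : ¬ Med d m M a e) (h4 : ¬ Med d m M b c)
    (pa : Med d m M a p) (pb : Med d m M b p) (pc : Med d m M c p) (pe : Med d m M e p)
    (qa : Med d m M a q) (qb : Med d m M b q) (qc : Med d m M c q) (qe : Med d m M e q) :
    d p q ≤ M := by
  by_contra hpq
  push Not at hpq
  have key : ∀ s t, ¬ Med d m M s t → Med d m M s p → Med d m M s q → Med d m M t p →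
      Med d m M t q → d s t < m := by
    intro s t hst h5 h6 h7 h8
    by_contra h9
    push Not at h9
    have h10 : M < d s t := by
      by_contra h11
      push Not at h11
      exact hst ⟨h9, h11⟩
    exact nand hd h5 h6 h7 h8 ⟨h10, hpq⟩
  have k1 := key a c h1 pa qa pc qc
  have k2 := key b e h2 pb qb pe qe
  have k3 := key a e h3 pa qa pe qe
  have k4 := key b c h4 pb qb pc qc
  have := hab.1
  have := hce.1
  rcases hd.four a b c e with h | h <;> linarith

end Pool.Agent.Q230.PG
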