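import Pool.Agent.Q230.PG.Real
import Pool.Agent.Q230.PG.Low
import Pool.Agent.H692R2.Col

/-!
# The reduction from 3-colourability: correctness
-/

set_option autoImplicit false

namespace Pool.Agent.Q230.PG

open SimpleGraph Pool.Agent.H221R2.WTree Pool.Agent.H692R2

/-- Copies of a list of pairs in all gadgets. -/
def blk (n : ℕ) (l : List (ℕ × ℕ)) : List (ℕ × ℕ) :=
  (List.range n).flatMap fun u => l.map fun p => (33 * u + p.1, 33 * u + p.2)

/-- The edges between gadgets. -/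
def crs (E : List (ℕ × ℕ)) : List (ℕ × ℕ) :=
  E.flatMap fun e => X0.map fun p => (33 * e.1 + p.1, 33 * e.2 + p.2)

/-- The instance of generalized PCG recognition. -/
def inst (E : List (ℕ × ℕ)) : Inst :=
  (33 * (2 * E.length), blk (2 * E.length) E0 ++ crs E, blk (2 * E.length) S0)

/-- Instances of 3-colourability with small names. -/
def PrB (E : List (ℕ × ℕ)) : Prop :=
  ∀ e ∈ E, e.1 ≠ e.2 ∧ e.1 < 2 * E.length ∧ e.2 < 2 * E.length

theorem mem_blk {n : ℕ} {l : List (ℕ × ℕ)} {q : ℕ × ℕ} :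
    q ∈ blk n l ↔ ∃ u p, u < n ∧ p ∈ l ∧ q = (33 * u + p.1, 33 * u + p.2) := by
  simp only [blk, List.mem_flatMap, List.mem_range, List.mem_map]
  constructor
  · rintro ⟨u, hu, p, hp, rfl⟩
    exact ⟨u, p, hu, hp, rfl⟩
  · rintro ⟨u, p, hu, hp, rfl⟩
    exact ⟨u, hu, p, hp, rfl⟩

theorem mem_crs {E : List (ℕ × ℕ)} {q : ℕ × ℕ} :
    q ∈ crs E ↔ ∃ e p, e ∈ E ∧ p ∈ X0 ∧ q = (33 * e.1 + p.1, 33 * e.2 + p.2) := by
  simp only [crs, List.mem_flatMap, List.mem_map]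
  constructor
  · rintro ⟨u, hu, p, hp, rfl⟩
    exact ⟨u, p, hu, hp, rfl⟩
  · rintro ⟨u, p, hu, hp, rfl⟩
    exact ⟨u, hu, p, hp, rfl⟩

theorem inst_ok {E : List (ℕ × ℕ)} (hE : PrB E) : IsInst (inst E) := by
  have hx := hE
  constructor
  · intro q hq
    change q ∈ blk (2 * E.length) E0 ++ crs E at hq
    change q.1 < 33 * (2 * E.length) ∧ q.2 < 33 * (2 * E.length) ∧ q.1 ≠ q.2
    rw [List.mem_append, mem_blk, mem_crs] at hq
    rcases hq with ⟨u, p, hu, hp, rfl⟩ | ⟨e, p, he, hp, rfl⟩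
    · obtain ⟨h1, h2, h3⟩ := E0_lt p hp
      refine ⟨by simp only; omega, by simp only; omega, by simp only; omega⟩
    · obtain ⟨h1, h2⟩ := X0_lt p hp
      obtain ⟨h3, h4, h5⟩ := hx e he
      refine ⟨by simp only; omega, by simp only; omega, by simp only; omega⟩
  · intro q hq
    change q ∈ blk (2 * E.length) S0 at hq
    change q.1 < 33 * (2 * E.length) ∧ q.2 < 33 * (2 * E.length) ∧ q.1 ≠ q.2 ∧
      q ∉ blk (2 * E.length) E0 ++ crs E ∧ q.swap ∉ blk (2 * E.length) E0 ++ crs E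
    rw [mem_blk] at hq
    obtain ⟨u, p, hu, hp, rfl⟩ := hq
    obtain ⟨h1, h2, h3⟩ := S0_lt p hp
    obtain ⟨k1, k2⟩ := S0_E0 p hp
    refine ⟨by simp only; omega, by simp only; omega, by simp only; omega, ?_, ?_⟩
    · rw [List.mem_append, mem_blk, mem_crs]
      rintro (⟨v, q, hv, hq, e⟩ | ⟨e', q, he, hq, e⟩)
      · obtain ⟨h4, h5, _⟩ := E0_lt q hq
        simp only [Prod.mk.injEq] at e
        have : p = q := Prod.ext (by omega) (by omega)
        exact k1 (this ▸ hq)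
      · obtain ⟨h4, h5⟩ := X0_lt q hq
        have h6 := (hx e' he).1
        simp only [Prod.mk.injEq] at e
        omega
    · rw [List.mem_append, mem_blk, mem_crs]
      rintro (⟨v, q, hv, hq, e⟩ | ⟨e', q, he, hq, e⟩)
      · obtain ⟨h4, h5, _⟩ := E0_lt q hq
        simp only [Prod.swap_prod_mk, Prod.mk.injEq] at e
        have : p.swap = q := Prod.ext (by simp only [Prod.fst_swap]; omega) (by simp only [Prod.snd_swap]; omega)
        exact k2 (this ▸ hq)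
      · obtain ⟨h4, h5⟩ := X0_lt q hq
        have h6 := (hx e' he).1
        simp only [Prod.swap_prod_mk, Prod.mk.injEq] at e
        omega

/-! ### From a colouring to a tree -/

theorem of_col {E : List (ℕ × ℕ)} (hE : PrB E) (hc : Col 3 E) :
    GenPCG (graph (inst E)) (pairs (inst E)) := by
  obtain ⟨c, hc⟩ := hc
  let n := 2 * E.length
  let ℓ : Fin (33 * n) → Nd n := fun v =>
    some (⟨v.1 / 33, by have := v.2; omega⟩, ⟨posT (c (v.1 / 33)) (v.1 % 33), by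
      have := pos_lt (c (v.1 / 33)) ⟨v.1 % 33, Nat.mod_lt _ (by norm_num)⟩
      simp only at this
      omega⟩)
  have hℓ : ∀ (v : Fin (33 * n)) (u a : ℕ), a < 33 → v.1 = 33 * u + a → ∃ (hu : u < n)
      (hp : posT (c u) a < 58), ℓ v = some (⟨u, hu⟩, ⟨posT (c u) a, hp⟩) := by
    intro v u a ha hv
    have h1 : v.1 / 33 = u := by omega
    have h2 : v.1 % 33 = a := by omega
    have h3 := v.2
    have h4 := pos_lt (c u) ⟨a, ha⟩
    refine ⟨by omega, by simp only at h4; omega, ?_⟩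
    subst h1 h2
    rfl
  have hinj : Function.Injective ℓ := by
    intro v v' h
    simp only [ℓ, Option.some.injEq, Prod.mk.injEq, Fin.mk.injEq] at h
    obtain ⟨h1, h2⟩ := h
    rw [h1] at h2
    have h3 := pos_inj (c (v'.1 / 33)) ⟨v.1 % 33, Nat.mod_lt _ (by norm_num)⟩
      ⟨v'.1 % 33, Nat.mod_lt _ (by norm_num)⟩ h2
    have h4 := congrArg Fin.val h3
    simp only at h4
    apply Fin.ext
    omega
  have hmed : ∀ x y : Fin (33 * n), x ≠ y → ((60 : ℝ) ≤ dN n (ℓ x) (ℓ y) ∧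
      dN n (ℓ x) (ℓ y) ≤ 100 ↔ (PCG (TN n) (wE none parN wN) ℓ 60 100).Adj x y) := by
    intro x y hxy
    obtain ⟨p, hp, _⟩ := (wtN (n := n)).tree.connected.exists_path_of_dist (ℓ x) (ℓ y)
    constructor
    · intro h
      rw [(wtN (n := n)).path _ _ p hp] at h
      exact ⟨hxy, p, hp, h.1, h.2⟩
    · rintro ⟨_, q, hq, h⟩
      rw [(wtN (n := n)).path _ _ q hq]
      exact h
  refine ⟨Nd n, inferInstance, TN n, wE none parN wN, ℓ, 60, 100, wtN.tree, wtN.pos, hinj, ?_,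
    by norm_num, by norm_num, ?_, ?_⟩
  · intro x
    rw [leaf_iff]
    constructor
    · rintro ⟨v, rfl⟩
      obtain ⟨hu, hp, e⟩ := hℓ v (v.1 / 33) (v.1 % 33) (Nat.mod_lt _ (by norm_num)) (by omega)
      refine ⟨_, _, e, ?_⟩
      exact pos_lt (c (v.1 / 33)) ⟨v.1 % 33, Nat.mod_lt _ (by norm_num)⟩
    · rintro ⟨u, k, rfl, hk⟩
      obtain ⟨b, hb⟩ := pos_surj (c u) ⟨k.1, hk⟩
      have hb' := b.2
      have hu := u.2
      have hlt : 33 * u.1 + b.1 < 33 * n := by omega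
      obtain ⟨h1, h2, h3⟩ := hℓ ⟨33 * u.1 + b.1, hlt⟩ u.1 b.1 hb' rfl
      refine ⟨⟨33 * u.1 + b.1, hlt⟩, ?_⟩
      rw [h3]
      congr 2
      exact Fin.ext hb
  · have key : ∀ x y : Fin (33 * n), x ≠ y → (x.1, y.1) ∈ blk n E0 ++ crs E →
        (PCG (TN n) (wE none parN wN) ℓ 60 100).Adj x y := by
      intro x y hxy h
      rw [← hmed x y hxy]
      rw [List.mem_append, mem_blk, mem_crs] at h
      rcases h with ⟨u, p, hu, hp, e⟩ | ⟨e', p, he, hp, e⟩
      · obtain ⟨h1, h2, _⟩ := E0_lt p hp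
        simp only [Prod.mk.injEq] at e
        obtain ⟨hu1, hp1, e1⟩ := hℓ x u p.1 h1 e.1
        obtain ⟨hu2, hp2, e2⟩ := hℓ y u p.2 h2 e.2
        rw [e1, e2, dN_same]
        have := E0_med (c u) p hp
        exact ⟨by exact_mod_cast this.1, by exact_mod_cast this.2⟩
      · obtain ⟨h1, h2⟩ := X0_lt p hp
        simp only [Prod.mk.injEq] at e
        obtain ⟨hu1, hp1, e1⟩ := hℓ x e'.1 p.1 h1 e.1
        obtain ⟨hu2, hp2, e2⟩ := hℓ y e'.2 p.2 h2 e.2
        have hne : (⟨e'.1, hu1⟩ : Fin n) ≠ ⟨e'.2, hu2⟩ := fun h => (hE e' he).1 (congrArg Fin.val h)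
        rw [e1, e2, dN_diff hne]
        have := X0_med (c e'.1) (c e'.2) (hc e' he) p hp
        exact ⟨by exact_mod_cast this.1, by exact_mod_cast this.2⟩
    rintro x y ⟨hxy, h | h⟩
    · exact key x y hxy h
    · exact (key y x hxy.symm h).symm
  · rintro ⟨x, y⟩ h
    change (x.1, y.1) ∈ blk n S0 at h
    rw [mem_blk] at h
    obtain ⟨u, p, hu, hp, e⟩ := h
    obtain ⟨h1, h2, h3⟩ := S0_lt p hp
    simp only [Prod.mk.injEq] at e
    have hxy : x ≠ y := by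
      rintro rfl
      omega
    intro hadj
    have h45 := (hmed x y hxy).2 hadj
    obtain ⟨hu1, hp1, e1⟩ := hℓ x u p.1 h1 e.1
    obtain ⟨hu2, hp2, e2⟩ := hℓ y u p.2 h2 e.2
    rw [e1, e2, dN_same] at h45
    obtain ⟨h4, h5⟩ := h45
    have h4' : 60 ≤ dT (posT (c u) p.1) (posT (c u) p.2) := by exact_mod_cast h4
    have h5' : dT (posT (c u) p.1) (posT (c u) p.2) ≤ 100 := by exact_mod_cast h5
    rcases S0_med (c u) p hp with h | h <;> omega

/-! ### From a tree to a colouring -/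

theorem tab_side : ∀ j : ZMod 9, (∃ i : Fin 3, colT j.val = i.1 ∧ colT (j + 1).val = i.1 ∧
    ((j.val, (j + 1).val) ∈ S0 ∨ ((j + 1).val, j.val) ∈ S0)) ∨
    (∃ f : Fin 6, j.val = 3 * (f.1 / 2) + f.1 % 2 ∧ (j + 1).val = 3 * (f.1 / 2) + f.1 % 2 + 1) := by
  decide +kernel

theorem tab_chord : ∀ i j : ZMod 9, j ≠ i → j ≠ i + 1 → i ≠ j + 1 →
    (i.val, j.val) ∈ E0 ∨ (j.val, i.val) ∈ E0 := by decide +kernel

theorem tab_forced : ∀ f : Fin 6, (9 + 4 * f.1, 10 + 4 * f.1) ∈ E0 ∧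
    (11 + 4 * f.1, 12 + 4 * f.1) ∈ E0 ∧ (9 + 4 * f.1, 11 + 4 * f.1) ∈ S0 ∧
    (10 + 4 * f.1, 12 + 4 * f.1) ∈ S0 ∧ (9 + 4 * f.1, 12 + 4 * f.1) ∈ S0 ∧
    (10 + 4 * f.1, 11 + 4 * f.1) ∈ S0 ∧
    (3 * (f.1 / 2) + f.1 % 2, 3 * (f.1 / 2) + f.1 % 2 + 1) ∈ S0 ∧
    (∀ s ∈ [9, 10, 11, 12], (3 * (f.1 / 2) + f.1 % 2, s + 4 * f.1) ∈ E0 ∧
      (3 * (f.1 / 2) + f.1 % 2 + 1, s + 4 * f.1) ∈ E0) := by decide +kernel

theorem tab_X : ∀ i : Fin 3, ∀ j k : ZMod 9, colT j.val = i.1 → colT k.val = i.1 →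
    (j.val, k.val) ∈ X0 := by decide +kernel

theorem to_col {E : List (ℕ × ℕ)} (hE : PrB E)
    (h : GenPCG (graph (inst E)) (pairs (inst E))) : Col 3 E := by
  obtain ⟨N, _, T, w, ℓ, m, M, hT, hw, hinj, _, hm, hmM, hG, hS⟩ := h
  let n := 2 * E.length
  -- the distance
  let d : N → N → ℝ := fun x y => wt w (hT.existsUnique_path x y).choose
  have hWT : WT T w d := ⟨hT, hw, fun x y p hp => by
    have h1 := (hT.existsUnique_path x y).choose_spec
    have h2 := h1.2 p hp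
    rw [h2]
    rfl⟩
  let D : Fin (33 * n) → Fin (33 * n) → ℝ := fun x y => d (ℓ x) (ℓ y)
  have hD : TM D := ⟨fun x y => hWT.symm _ _, fun x y z u => hWT.four' _ _ _ _⟩
  have hmed : ∀ x y : Fin (33 * n), x ≠ y → ((PCG T w ℓ m M).Adj x y ↔ Med D m M x y) := by
    intro x y hxy
    obtain ⟨p, hp, _⟩ := hT.connected.exists_path_of_dist (ℓ x) (ℓ y)
    constructor
    · rintro ⟨_, q, hq, h1, h2⟩
      have e : D x y = wt w q := hWT.path _ _ q hq
      exact ⟨e ▸ h1, e ▸ h2⟩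
    · rintro ⟨h1, h2⟩
      have e : D x y = wt w p := hWT.path _ _ p hp
      exact ⟨hxy, p, hp, e ▸ h1, e ▸ h2⟩
  have hEm : ∀ x y : Fin (33 * n), x ≠ y → (x.1, y.1) ∈ blk n E0 ++ crs E → Med D m M x y :=
    fun x y hxy h => (hmed x y hxy).1 (hG ⟨hxy, Or.inl h⟩)
  have hSm : ∀ x y : Fin (33 * n), x ≠ y → (x.1, y.1) ∈ blk n S0 → ¬ Med D m M x y :=
    fun x y hxy h h' => hS (x, y) h ((hmed x y hxy).2 h')
  -- the vertices of the gadgets
  let v : Fin n → ℕ → Fin (33 * n) := fun u a => ⟨33 * u.1 + a % 33, by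
    have := u.2
    have := Nat.mod_lt a (show 0 < 33 by norm_num)
    omega⟩
  have hE0 : ∀ u a b, (a, b) ∈ E0 → Med D m M (v u a) (v u b) := by
    intro u a b hab
    obtain ⟨h1, h2, h3⟩ := E0_lt _ hab
    simp only at h1 h2 h3
    have e1 : a % 33 = a := Nat.mod_eq_of_lt h1
    have e2 : b % 33 = b := Nat.mod_eq_of_lt h2
    apply hEm
    · intro e
      have := congrArg Fin.val e
      simp only [v] at this
      omega
    · rw [List.mem_append, mem_blk]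
      exact Or.inl ⟨u.1, (a, b), u.2, hab, by simp only [v]; rw [e1, e2]⟩
  have hS0 : ∀ u a b, (a, b) ∈ S0 → ¬ Med D m M (v u a) (v u b) := by
    intro u a b hab
    obtain ⟨h1, h2, h3⟩ := S0_lt _ hab
    simp only at h1 h2 h3
    have e1 : a % 33 = a := Nat.mod_eq_of_lt h1
    have e2 : b % 33 = b := Nat.mod_eq_of_lt h2
    apply hSm
    · intro e
      have := congrArg Fin.val e
      simp only [v] at this
      omega
    · rw [mem_blk]
      exact ⟨u.1, (a, b), u.2, hab, by simp only [v]; rw [e1, e2]⟩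
  have hX0 : ∀ (u u' : Fin n) a b, (u.1, u'.1) ∈ E → (a, b) ∈ X0 →
      Med D m M (v u a) (v u' b) := by
    intro u u' a b hu hab
    obtain ⟨h1, h2⟩ := X0_lt _ hab
    simp only at h1 h2
    have h3 := (hE _ hu).1
    have e1 : a % 33 = a := Nat.mod_eq_of_lt h1
    have e2 : b % 33 = b := Nat.mod_eq_of_lt h2
    apply hEm
    · intro e
      have := congrArg Fin.val e
      simp only [v] at this
      simp only at h3
      omega
    · rw [List.mem_append, mem_crs]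
      exact Or.inr ⟨(u.1, u'.1), (a, b), hu, hab, by simp only [v]; rw [e1, e2]⟩
  -- a long pair of a colour
  have hlong : ∀ u : Fin n, ∃ i : Fin 3, ∃ j : ZMod 9, M < D (v u j.val) (v u (j + 1).val) ∧
      colT j.val = i.1 ∧ colT (j + 1).val = i.1 := by
    intro u
    by_contra hno
    push Not at hno
    refine cyc9 hD (m := m) (fun j : ZMod 9 => v u j.val) (fun j => ?_) (fun i j h1 h2 h3 => ?_)
    · rcases tab_side j with ⟨i, h1, h2, h3⟩ | ⟨f, h1, h2⟩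
      · have h4 : ¬ Med D m M (v u j.val) (v u (j + 1).val) := by
          rcases h3 with h3 | h3
          · exact hS0 u _ _ h3
          · exact fun h => hS0 u _ _ h3 (h.symm hD)
        by_contra h5
        push Not at h5
        refine hno i j ?_ h1 h2
        by_contra h6
        push Not at h6
        exact h4 ⟨h5, h6⟩
      · obtain ⟨k1, k2, k3, k4, k5, k6, k7, k8⟩ := tab_forced f
        have k0 := k8 9 (by simp)
        have k9 := k8 10 (by simp)
        have k10 := k8 11 (by simp)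
        have k11 := k8 12 (by simp)
        have hle := forced hD (hE0 u _ _ k1) (hE0 u _ _ k2) (hS0 u _ _ k3) (hS0 u _ _ k4)
          (hS0 u _ _ k5) (hS0 u _ _ k6)
          ((hE0 u _ _ k0.1).symm hD) ((hE0 u _ _ k9.1).symm hD)
          ((hE0 u _ _ k10.1).symm hD) ((hE0 u _ _ k11.1).symm hD)
          ((hE0 u _ _ k0.2).symm hD) ((hE0 u _ _ k9.2).symm hD)
          ((hE0 u _ _ k10.2).symm hD) ((hE0 u _ _ k11.2).symm hD)
        have h4 := hS0 u _ _ k7
        simp only [h1, h2]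
        by_contra h5
        push Not at h5
        exact h4 ⟨h5, hle⟩
    · rcases tab_chord i j h1 h2 h3 with h | h
      · exact (hE0 u _ _ h).1
      · exact ((hE0 u _ _ h).symm hD).1
  choose c hc using hlong
  refine ⟨fun u => if h : u < n then c ⟨u, h⟩ else 0, fun e he => ?_⟩
  obtain ⟨_, h1, h2⟩ := hE e he
  have h1' : e.1 < n := h1
  have h2' : e.2 < n := h2
  simp only [h1', h2', dite_true]
  intro heq
  obtain ⟨j, hj1, hj2, hj3⟩ := hc ⟨e.1, h1'⟩
  obtain ⟨k, hk1, hk2, hk3⟩ := hc ⟨e.2, h2'⟩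
  rw [← heq] at hk2 hk3
  exact nand hD (hX0 ⟨e.1, h1'⟩ ⟨e.2, h2'⟩ _ _ he (tab_X _ j k hj2 hk2))
    (hX0 ⟨e.1, h1'⟩ ⟨e.2, h2'⟩ _ _ he (tab_X _ j (k + 1) hj2 hk3))
    (hX0 ⟨e.1, h1'⟩ ⟨e.2, h2'⟩ _ _ he (tab_X _ (j + 1) k hj3 hk2))
    (hX0 ⟨e.1, h1'⟩ ⟨e.2, h2'⟩ _ _ he (tab_X _ (j + 1) (k + 1) hj3 hk3)) ⟨hj1, hk1⟩

theorem correct {E : List (ℕ × ℕ)} (hE : PrB E) : Col 3 E ↔ Problem (inst E) :=
  ⟨fun h => ⟨inst_ok hE, of_col hE h⟩, fun h => to_col hE h.2⟩

end Pool.Agent.Q230.PG
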