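import Pool.Agent.H221R2.WTree

/-!
# Trees given by a parent function
-/

set_option autoImplicit false

namespace Pool.Agent.Q230.PG

open SimpleGraph Pool.Agent.H221R2.WTree

section par

variable {N : Type} (r : N) (par : N → N)

/-- The tree with the given parent function and root `r`. -/
def tr : SimpleGraph N := SimpleGraph.fromRel (fun x y => x ≠ r ∧ par x = y)

/-- Data: a rank decreasing along `par`, and the ancestor relation (for ancestors other than the
root). -/
structure Good (rk : N → ℕ) (A : N → N → Bool) : Prop where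
  rk : ∀ x, x ≠ r → rk (par x) < rk x
  root : ∀ z, z ≠ r → A z r = false
  self : ∀ z, z ≠ r → A z z = true
  step : ∀ z x, z ≠ r → x ≠ r → x ≠ z → A z x = A z (par x)
  par : ∀ z, z ≠ r → A z (par z) = false

variable {r par} {rk : N → ℕ} {A : N → N → Bool}

theorem tr_adj {x y : N} : (tr r par).Adj x y ↔
    x ≠ y ∧ ((x ≠ r ∧ par x = y) ∨ (y ≠ r ∧ par y = x)) := SimpleGraph.fromRel_adj _ _ _

theorem Good.par_ne (h : Good r par rk A) {x : N} (hx : x ≠ r) : par x ≠ x := fun e => by
  have := h.rk x hx
  rw [e] at this
  omega

theorem Good.adj_par (h : Good r par rk A) {x : N} (hx : x ≠ r) : (tr r par).Adj x (par x) :=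
  tr_adj.2 ⟨(h.par_ne hx).symm, Or.inl ⟨hx, rfl⟩⟩

theorem Good.edge_inj (h : Good r par rk A) {x z : N} (hx : x ≠ r) (hz : z ≠ r)
    (e : s(x, par x) = s(z, par z)) : x = z := by
  rw [Sym2.eq_iff] at e
  rcases e with e | e
  · exact e.1
  · exfalso
    have h1 := h.rk x hx
    have h2 := h.rk z hz
    rw [← e.1] at h2
    rw [e.2] at h1
    omega

theorem Good.xor_step (h : Good r par rk A) [DecidableEq N] {z x y : N} (hz : z ≠ r)
    (hxy : (tr r par).Adj x y) :
    (xor (A z x) (A z y)) = decide (s(x, y) = s(z, par z)) := by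
  have key : ∀ x, x ≠ r → (xor (A z x) (A z (par x))) = decide (s(x, par x) = s(z, par z)) := by
    intro x hx
    by_cases hxz : x = z
    · subst hxz
      rw [h.self x hx, h.par x hx]
      simp
    · rw [h.step z x hz hx hxz]
      have : ¬ s(x, par x) = s(z, par z) := fun e => hxz (h.edge_inj hx hz e)
      simp [this]
  rcases (tr_adj.1 hxy).2 with ⟨h1, rfl⟩ | ⟨h1, rfl⟩
  · exact key x h1
  · rw [Bool.xor_comm, key y h1, Sym2.eq_swap]

theorem Good.count_mod (h : Good r par rk A) [DecidableEq N] {z : N} (hz : z ≠ r) {x y : N}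
    (p : (tr r par).Walk x y) :
    p.edges.count s(z, par z) % 2 = (xor (A z x) (A z y)).toNat := by
  induction p with
  | nil => simp
  | @cons u v w hadj p ih =>
    rw [SimpleGraph.Walk.edges_cons, List.count_cons]
    have h1 := h.xor_step hz hadj
    have h2 : (xor (A z u) (A z w)) = xor (xor (A z u) (A z v)) (xor (A z v) (A z w)) := by
      cases A z u <;> cases A z v <;> cases A z w <;> rfl
    rw [h2, h1]
    have h3 : (s(u, v) == s(z, par z)) = decide (s(u, v) = s(z, par z)) := by
      by_cases e : s(u, v) = s(z, par z) <;> simp [e]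
    rw [h3]
    by_cases e : s(u, v) = s(z, par z)
    · simp only [e, decide_true, if_true]
      cases hb : (xor (A z v) (A z w)) <;> rw [hb] at ih <;> simp at ih ⊢ <;> omega
    · simp only [e, decide_false, Bool.false_eq_true, if_false, Bool.false_xor, add_zero]
      exact ih

theorem Good.reach (h : Good r par rk A) (x : N) : (tr r par).Reachable x r := by
  have key : ∀ n : ℕ, ∀ x, rk x ≤ n → (tr r par).Reachable x r := by
    intro n
    induction n with
    | zero =>
      intro x hx
      by_cases hr : x = r
      · rw [hr]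
      · have := h.rk x hr
        omega
    | succ n ih =>
      intro x hx
      by_cases hr : x = r
      · rw [hr]
      · have := h.rk x hr
        exact (h.adj_par hr).reachable.trans (ih _ (by omega))
  exact key _ x le_rfl

theorem Good.isTree (h : Good r par rk A) : (tr r par).IsTree := by
  classical
  have hne : Nonempty N := ⟨r⟩
  refine ⟨⟨fun x y => (h.reach x).trans (h.reach y).symm⟩, ?_⟩
  intro v c hc
  have hn := hc.edges_nodup
  have hpos : c.edges ≠ [] := by
    intro e
    have := hc.three_le_length
    rw [← SimpleGraph.Walk.length_edges, e] at this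
    simp at this
  obtain ⟨e, he⟩ := List.exists_mem_of_ne_nil _ hpos
  have hadj := c.edges_subset_edgeSet he
  have hcnt : c.edges.count e = 1 := List.count_eq_one_of_mem hn he
  have key : ∀ z, z ≠ r → c.edges.count s(z, par z) % 2 = 0 := by
    intro z hz
    rw [h.count_mod hz c]
    simp
  revert hadj hcnt
  refine Sym2.ind (fun x y => ?_) e
  intro hadj hcnt
  rcases (tr_adj.1 ((SimpleGraph.mem_edgeSet _).1 hadj)).2 with ⟨h1, rfl⟩ | ⟨h1, rfl⟩
  · have := key x h1
    omega
  · have := key y h1
    rw [Sym2.eq_swap] at this
    omega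

variable [Fintype N] [DecidableEq N] (ω : N → ℝ)

variable (r par) in
/-- The weight function of the tree: `ω x` is the weight of the edge from `x` to its parent. -/
def wE (e : Sym2 N) : ℝ := ∑ z, if z ≠ r ∧ e = s(z, par z) then ω z else 0

variable (r A) in
/-- The distance. -/
def dA (x y : N) : ℝ := ∑ z, if z ≠ r ∧ (xor (A z x) (A z y)) = true then ω z else 0

theorem sum_wE (l : List (Sym2 N)) : (l.map (wE r par ω)).sum =
    ∑ z, if z ≠ r then (l.count s(z, par z) : ℝ) * ω z else 0 := by
  induction l with
  | nil => simp
  | cons e l ih =>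
    rw [List.map_cons, List.sum_cons, ih, wE, ← Finset.sum_add_distrib]
    refine Finset.sum_congr rfl fun z _ => ?_
    by_cases hz : z = r
    · simp [hz]
    · by_cases he : e = s(z, par z)
      · simp only [ne_eq, hz, not_false_eq_true, he, and_self, if_true, List.count_cons, beq_self_eq_true]
        push_cast
        ring
      · have : (e == s(z, par z)) = false := by simpa using he
        simp [hz, he, List.count_cons]

theorem Good.WT (h : Good r par rk A) (hω : ∀ x, x ≠ r → 0 < ω x) :
    WT (tr r par) (wE r par ω) (dA r A ω) where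
  tree := h.isTree
  pos := by
    intro e
    refine Sym2.ind (fun x y => ?_) e
    intro hadj
    have key : ∀ x, x ≠ r → 0 < wE r par ω s(x, par x) := by
      intro x hx
      unfold wE
      refine Finset.sum_pos' (fun z _ => ?_) ⟨x, Finset.mem_univ _, ?_⟩
      · split_ifs with hc
        · exact (hω z hc.1).le
        · exact le_rfl
      · rw [if_pos ⟨hx, rfl⟩]
        exact hω x hx
    rcases (tr_adj.1 ((SimpleGraph.mem_edgeSet _).1 hadj)).2 with ⟨h1, rfl⟩ | ⟨h1, rfl⟩
    · exact key x h1
    · rw [Sym2.eq_swap]
      exact key y h1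
  path := by
    intro x y p hp
    rw [sum_wE, dA]
    refine Finset.sum_congr rfl fun z _ => ?_
    by_cases hz : z = r
    · simp [hz]
    · have h1 := h.count_mod hz p
      have h2 : p.edges.count s(z, par z) ≤ 1 := List.nodup_iff_count_le_one.1 hp.isTrail.edges_nodup _
      cases hb : (xor (A z x) (A z y)) <;> rw [hb] at h1
      · have h3 : p.edges.count s(z, par z) = 0 := by simp at h1; omega
        simp [h3]
      · have h3 : p.edges.count s(z, par z) = 1 := by simp at h1; omega
        simp [h3, hz]

end par

end Pool.Agent.Q230.PG
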