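import Pool.Agent.Q230.PG.Tab
import Pool.Agent.Q230.PG.Par
import Pool.Agent.Q230.PG.Defs

/-!
# The tree for a coloured graph
-/

set_option autoImplicit false

namespace Pool.Agent.Q230.PG

open SimpleGraph Pool.Agent.H221R2.WTree

/-- The nodes of the tree: the root and 58 nodes for each vertex. -/
abbrev Nd (n : ℕ) : Type := Option (Fin n × Fin 58)

variable {n : ℕ}

def parN : Nd n → Nd n
  | none => none
  | some (u, k) => if h : parT k < 58 then some (u, ⟨parT k, h⟩) else none

def rkN : Nd n → ℕ
  | none => 0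
  | some (_, k) => rkF 8 k

def AN : Nd n → Nd n → Bool
  | some (u, k), some (v, m) => decide (u = v) && anc k m
  | _, _ => false

def wN : Nd n → ℝ
  | none => 1
  | some (_, k) => wT k

theorem parN_some (u : Fin n) (k : Fin 58) :
    parN (some (u, k)) = if h : parT k < 58 then some (u, ⟨parT k, h⟩) else none := rfl

theorem anc_58 (k : ℕ) : anc k 58 = false := rfl

theorem AN_par (u : Fin n) (k : Fin 58) (v : Fin n) (m : Fin 58) :
    AN (some (u, k)) (parN (some (v, m))) = (decide (u = v) && anc k (parT m)) := by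
  rw [parN_some]
  split_ifs with h
  · rfl
  · have h58 : parT m = 58 := by
      have := (par_le m).1
      omega
    rw [h58, anc_58, Bool.and_false]
    rfl

theorem good : Good (none : Nd n) parN rkN AN where
  rk := by
    rintro (_ | ⟨u, k⟩) hx
    · exact absurd rfl hx
    · have h1 := rk_ok k
      rw [parN_some]
      split_ifs with h
      · exact h1
      · change 0 < rkF 8 k
        omega
  root := by
    rintro (_ | ⟨u, k⟩) hz <;> rfl
  self := by
    rintro (_ | ⟨u, k⟩) hz
    · exact absurd rfl hz
    · change (decide (u = u) && anc k k) = true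
      rw [anc_self]
      simp
  step := by
    rintro (_ | ⟨u, k⟩) (_ | ⟨v, m⟩) hz hx hxz
    · exact absurd rfl hz
    · exact absurd rfl hz
    · exact absurd rfl hx
    · rw [AN_par]
      change (decide (u = v) && anc k m) = _
      by_cases huv : u = v
      · subst huv
        have hkm : m ≠ k := fun e => hxz (by rw [e])
        rw [anc_step k m hkm]
      · simp [huv]
  par := by
    rintro (_ | ⟨u, k⟩) hz
    · exact absurd rfl hz
    · rw [AN_par, anc_par, Bool.and_false]

theorem wN_pos : ∀ x : Nd n, x ≠ none → 0 < wN x := by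
  rintro (_ | ⟨u, k⟩) hx
  · exact absurd rfl hx
  · change (0 : ℝ) < (wT k : ℝ)
    exact_mod_cast w_pos k

/-- The tree. -/
def TN (n : ℕ) : SimpleGraph (Nd n) := tr none parN

/-- Its distance. -/
noncomputable def dN (n : ℕ) : Nd n → Nd n → ℝ := dA none AN wN

theorem wtN : WT (TN n) (wE none parN wN) (dN n) := good.WT wN wN_pos

theorem sum58 (F : ℕ → ℝ) : ∑ k : Fin 58, F k.1 = ∑ k ∈ Finset.range 58, F k :=
  (Finset.sum_range (fun k => F k)).symm

theorem dN_same (u : Fin n) (a b : Fin 58) :
    dN n (some (u, a)) (some (u, b)) = (dT a b : ℕ) := by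
  unfold dN dA dT
  rw [Fintype.sum_option, Fintype.sum_prod_type, if_neg (by simp), zero_add,
    Finset.sum_eq_single u]
  · push_cast
    rw [← sum58 (fun k => if (xor (anc k a) (anc k b)) = true then (wT k : ℝ) else 0)]
    refine Finset.sum_congr rfl fun k _ => ?_
    simp [AN, wN]
  · intro v _ hv
    refine Finset.sum_eq_zero fun k _ => ?_
    simp [AN, hv]
  · intro h
    exact absurd (Finset.mem_univ _) h

theorem dN_diff {u v : Fin n} (huv : u ≠ v) (a b : Fin 58) :
    dN n (some (u, a)) (some (v, b)) = (depT a + depT b : ℕ) := by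
  unfold dN dA depT
  rw [Fintype.sum_option, Fintype.sum_prod_type, if_neg (by simp), zero_add,
    Fintype.sum_eq_add u v huv]
  · push_cast
    rw [← sum58 (fun k => if anc k a = true then (wT k : ℝ) else 0),
      ← sum58 (fun k => if anc k b = true then (wT k : ℝ) else 0)]
    congr 1
    · refine Finset.sum_congr rfl fun k _ => ?_
      simp [AN, wN, huv]
    · refine Finset.sum_congr rfl fun k _ => ?_
      simp [AN, wN, huv.symm]
  · rintro w ⟨h1, h2⟩
    refine Finset.sum_eq_zero fun k _ => ?_
    simp [AN, h1, h2]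

/-- The leaves. -/
theorem leaf_iff (x : Nd n) :
    ((TN n).neighborSet x).ncard = 1 ↔ ∃ u k, x = some (u, k) ∧ k.1 < 33 := by
  have hmem : ∀ x y : Nd n, y ∈ (TN n).neighborSet x ↔
      x ≠ y ∧ ((x ≠ none ∧ parN x = y) ∨ (y ≠ none ∧ parN y = x)) := fun x y => tr_adj
  have hch : ∀ (u : Fin n) (k : Fin 58), 33 ≤ k.1 →
      ∃ y, y ∈ (TN n).neighborSet (some (u, k)) ∧ y ≠ parN (some (u, k)) := by
    intro u k hk
    obtain ⟨h1, h2, h3⟩ := ch_ok k hk
    have hp : parN (some (u, (⟨chT k, h1⟩ : Fin 58))) = some (u, k) := by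
      rw [parN_some]
      have h4 : parT (chT k) < 58 := by rw [h2]; exact k.2
      simp only [h4, dite_true]
      congr 2
      exact Fin.ext h2
    refine ⟨some (u, ⟨chT k, h1⟩), ?_, ?_⟩
    · rw [hmem]
      refine ⟨?_, Or.inr ⟨by simp, hp⟩⟩
      intro e
      rw [← e] at hp
      exact good.par_ne (x := (some (u, k) : Nd n)) (by simp) hp
    · intro e
      rw [parN_some] at e
      split_ifs at e with h4
      · simp only [Option.some.injEq, Prod.mk.injEq, true_and, Fin.mk.injEq] at e
        exact h3 e
  constructor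
  · intro h
    obtain ⟨a, ha⟩ := Set.ncard_eq_one.1 h
    have huniq : ∀ y z, y ∈ (TN n).neighborSet x → z ∈ (TN n).neighborSet x → y = z := by
      intro y z hy hz
      rw [ha, Set.mem_singleton_iff] at hy hz
      rw [hy, hz]
    rcases x with _ | ⟨u, k⟩
    · exfalso
      have hane : a ∈ (TN n).neighborSet (none : Nd n) := by rw [ha]; rfl
      rw [hmem] at hane
      rcases a with _ | ⟨u, k⟩
      · exact hane.1 rfl
      · have e1 : (some (u, (35 : Fin 58)) : Nd n) ∈ (TN n).neighborSet none := by
          rw [hmem]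
          exact ⟨by simp, Or.inr ⟨by simp, rfl⟩⟩
        have e2 : (some (u, (36 : Fin 58)) : Nd n) ∈ (TN n).neighborSet none := by
          rw [hmem]
          exact ⟨by simp, Or.inr ⟨by simp, rfl⟩⟩
        have := huniq _ _ e1 e2
        simp only [Option.some.injEq, Prod.mk.injEq, true_and] at this
        exact absurd this (by decide)
    · refine ⟨u, k, rfl, ?_⟩
      by_contra hk
      push Not at hk
      obtain ⟨y, hy, hyn⟩ := hch u k hk
      have hpar : parN (some (u, k)) ∈ (TN n).neighborSet (some (u, k)) := by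
        rw [hmem]
        exact ⟨(good.par_ne (by simp)).symm, Or.inl ⟨by simp, rfl⟩⟩
      exact hyn (huniq _ _ hy hpar)
  · rintro ⟨u, k, rfl, hk⟩
    rw [Set.ncard_eq_one]
    refine ⟨parN (some (u, k)), ?_⟩
    ext y
    rw [hmem, Set.mem_singleton_iff]
    constructor
    · rintro ⟨h1, ⟨_, h2⟩ | ⟨h2, h3⟩⟩
      · exact h2.symm
      · exfalso
        rcases y with _ | ⟨v, m⟩
        · exact h2 rfl
        · rw [parN_some] at h3
          split_ifs at h3 with h4
          · simp only [Option.some.injEq, Prod.mk.injEq] at h3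
            have h5 := (par_le m).2
            have h6 : parT m = k.1 := congrArg Fin.val h3.2
            omega
    · rintro rfl
      exact ⟨(good.par_ne (by simp)).symm, Or.inl ⟨by simp, rfl⟩⟩

end Pool.Agent.Q230.PG
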