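import Mathlib

/-!
# The gadget: tables
-/

set_option autoImplicit false

namespace Pool.Agent.Q230.PG

/-- The required edges inside a gadget with vertices `0, …, 32`. -/
def E0 : List (ℕ × ℕ) :=
  (List.product (List.range 9) (List.range 9)).filter
    (fun p => decide (p.1 + 1 < p.2) && !(decide (p.1 = 0) && decide (p.2 = 8))) ++
  (List.range 6).flatMap (fun f => [(9 + 4 * f, 10 + 4 * f), (11 + 4 * f, 12 + 4 * f)] ++
    (List.range 4).flatMap (fun t => [(3 * (f / 2) + f % 2, 9 + 4 * f + t),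
      (3 * (f / 2) + f % 2 + 1, 9 + 4 * f + t)]))

/-- The forbidden pairs inside a gadget. -/
def S0 : List (ℕ × ℕ) :=
  (0, 8) :: (List.range 8).map (fun j => (j, j + 1)) ++
  (List.range 6).flatMap (fun f => [(9 + 4 * f, 11 + 4 * f), (10 + 4 * f, 12 + 4 * f),
    (9 + 4 * f, 12 + 4 * f), (10 + 4 * f, 11 + 4 * f)])

/-- The colour of a vertex of the nine-cycle (`3` for the three vertices without colour). -/
def colT (j : ℕ) : ℕ := [0, 3, 1, 1, 3, 2, 2, 3, 0].getD j 3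

/-- The required edges between two gadgets. -/
def X0 : List (ℕ × ℕ) :=
  (List.product (List.range 9) (List.range 9)).filter
    (fun p => decide (colT p.1 < 3) && decide (colT p.1 = colT p.2))

/-- The parents of the nodes `0, …, 57` of a gadget; `58` stands for the root. -/
def parL : List ℕ :=
  [33, 33, 34, 35, 36, 37, 38, 39, 39] ++
  (List.range 6).flatMap (fun f => [41 + 3 * f, 42 + 3 * f, 42 + 3 * f, 41 + 3 * f]) ++
  [34, 35, 58, 58, 36, 37, 38] ++
  [33, 40, 40, 34, 43, 43, 58, 46, 46, 36, 49, 49, 38, 52, 52, 39, 55, 55]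

/-- The weights. -/
def wL : List ℕ :=
  [34, 25, 26, 28, 23, 27, 27, 27, 32] ++
  [40, 18, 40, 18, 40, 18, 40, 18, 40, 18, 40, 18, 40, 18, 40, 18, 40, 18, 40, 18, 40, 18, 40, 18] ++
  [7, 4, 6, 2, 9, 4, 4] ++
  [10, 11, 11, 10, 11, 11, 10, 11, 11, 10, 11, 11, 10, 11, 11, 10, 11, 11]

def parT (k : ℕ) : ℕ := parL.getD k 58

def wT (k : ℕ) : ℕ := wL.getD k 1

/-- Depth. -/
def rkF : ℕ → ℕ → ℕ
  | 0, _ => 0
  | f + 1, k => if k < 58 then 1 + rkF f (parT k) else 0

/-- `k` is an ancestor of `m` (or equal to `m`). -/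
def ancF : ℕ → ℕ → ℕ → Bool
  | 0, _, _ => false
  | f + 1, k, m => decide (m < 58) && (decide (k = m) || ancF f k (parT m))

def anc (k m : ℕ) : Bool := ancF 8 k m

/-- Distances in a gadget. -/
def dT (a b : ℕ) : ℕ := ∑ k ∈ Finset.range 58, if (xor (anc k a) (anc k b)) = true then wT k else 0

/-- Distances to the root. -/
def depT (a : ℕ) : ℕ := ∑ k ∈ Finset.range 58, if anc k a = true then wT k else 0

/-- The place of the vertex `a` of a gadget of colour `i`. -/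
def posT (i a : ℕ) : ℕ :=
  if a < 9 then (a + 9 - 3 * i) % 9 else 9 + 4 * (((a - 9) / 4 + 6 - 2 * i) % 6) + (a - 9) % 4

/-- A child of an inner node. -/
def chT (k : ℕ) : ℕ :=
  [1, 2, 3, 4, 5, 6, 7, 41, 9, 10, 44, 13, 14, 47, 17, 18, 50, 21, 22, 53, 25, 26, 56, 29, 30].getD
    (k - 33) 0

theorem rk_ok : ∀ k : Fin 58, rkF 8 (parT k) < rkF 8 k := by decide +kernel

theorem par_le : ∀ k : Fin 58, parT k ≤ 58 ∧ 33 ≤ parT k := by decide +kernel

theorem anc_self : ∀ k : Fin 58, anc k k = true := by decide +kernel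

theorem anc_par : ∀ k : Fin 58, anc k (parT k) = false := by decide +kernel

theorem anc_step : ∀ k m : Fin 58, m ≠ k → anc k m = anc k (parT m) := by decide +kernel

theorem w_pos : ∀ k : Fin 58, 0 < wT k := by decide +kernel

theorem ch_ok : ∀ k : Fin 58, 33 ≤ k.1 → chT k < 58 ∧ parT (chT k) = k.1 ∧ chT k ≠ parT k := by
  decide +kernel

theorem pos_lt : ∀ i : Fin 3, ∀ a : Fin 33, posT i a < 33 := by decide +kernel

theorem pos_inj : ∀ i : Fin 3, ∀ a b : Fin 33, posT i a = posT i b → a = b := by decide +kernel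

theorem pos_surj : ∀ i : Fin 3, ∀ a : Fin 33, ∃ b : Fin 33, posT i b = a := by decide +kernel

theorem E0_med : ∀ i : Fin 3, ∀ p ∈ E0, 60 ≤ dT (posT i p.1) (posT i p.2) ∧
    dT (posT i p.1) (posT i p.2) ≤ 100 := by decide +kernel

theorem S0_med : ∀ i : Fin 3, ∀ p ∈ S0, dT (posT i p.1) (posT i p.2) < 60 ∨
    100 < dT (posT i p.1) (posT i p.2) := by decide +kernel

theorem X0_med : ∀ i j : Fin 3, i ≠ j → ∀ p ∈ X0, 60 ≤ depT (posT i p.1) + depT (posT j p.2) ∧
    depT (posT i p.1) + depT (posT j p.2) ≤ 100 := by decide +kernel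

theorem E0_lt : ∀ p ∈ E0, p.1 < 33 ∧ p.2 < 33 ∧ p.1 ≠ p.2 := by decide +kernel

theorem S0_lt : ∀ p ∈ S0, p.1 < 33 ∧ p.2 < 33 ∧ p.1 ≠ p.2 := by decide +kernel

theorem X0_lt : ∀ p ∈ X0, p.1 < 33 ∧ p.2 < 33 := by decide +kernel

theorem S0_E0 : ∀ p ∈ S0, p ∉ E0 ∧ p.swap ∉ E0 := by decide +kernel

end Pool.Agent.Q230.PG
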